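import Pool.Agent.MP_c69980_ag.H43.Spec10
import Pool.Agent.MP_c69980_ag.S34.Lft

/-!
A generic line avoids all subvarieties of codimension two.
-/

set_option autoImplicit false

namespace Pool.Agent.MP_c69980_ag.H43

open MvPolynomial H60 Finset Filter Topology Metric

variable {t a M : ℕ} {w : Fin M → Option (Fin t)} {Θ : Pt t a → Fin M → ℂ}

lemma avoid_c1 (g : GA1 w Θ) {β : Cht M t} {p : Pt t a} (h : Ch w β (Θ p)) :
    ContDiffAt ℂ 1 (fun q => co β (Θ q)) p := by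
  have c1 := contDiff_pi.1 (lft_c1 g.hol)
  exact contDiffAt_pi.2 fun x => (c1 x.1).contDiffAt.div (c1 _).contDiffAt (h x.2).2

lemma avoid_imm (g : GA1 w Θ) {β : Cht M t} {p v : Pt t a} (h : Ch w β (Θ p))
    (hv : fderiv ℂ (fun q => co β (Θ q)) p v = 0) : v = 0 := by
  have c1 := contDiff_pi.1 (lft_c1 g.hol)
  have hd := ((avoid_c1 g h).differentiableAt one_ne_zero).hasFDerivAt
  refine g.imm p v fun c b hb => ?_
  have e : (fun q => Θ q c / Θ q b) =ᶠ[𝓝 p]
      (fun y : CI M t → ℂ => y (c, none) / y (b, none)) ∘ fun q => co β (Θ q) := by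
    filter_upwards [(c1 _).continuous.continuousAt.eventually_ne (h none).2] with q hq
    exact (div_div_div_cancel_right₀ hq _ _).symm
  have d : DifferentiableAt ℂ (fun y : CI M t → ℂ => y (c, none) / y (b, none)) (co β (Θ p)) :=
    ((contDiffAt_apply ℂ ℂ (c, none) _ (n := 1)).div (contDiffAt_apply ℂ ℂ (b, none) _)
      (div_ne_zero hb (h none).2)).differentiableAt one_ne_zero
  rw [e.fderiv_eq, (d.hasFDerivAt.comp p hd).fderiv, ContinuousLinearMap.comp_apply, hv, map_zero]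

/-- The linear part of `qq`. -/
noncomputable def avoidL {m : ℕ} (lam : Fin m → Pt t a) : (Fin m → ℂ) →L[ℂ] Pt t a :=
  LinearMap.toContinuousLinearMap (Fintype.linearCombination ℂ lam)

lemma avoid_qq {m : ℕ} (p₀ : Pt t a) (lam : Fin m → Pt t a) :
    qq p₀ lam = fun s => p₀ + avoidL lam s := by
  funext s
  simp [qq, avoidL, Fintype.linearCombination_apply]

lemma avoid_phi (g : GA1 w Θ) {m : ℕ} (p₀ : Pt t a) {lam : Fin m → Pt t a}
    (hl : LinearIndependent ℂ lam) {β : Cht M t} {s : Fin m → ℂ} (h : Ch w β (Θ (qq p₀ lam s))) :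
    ContDiffAt ℂ 1 (fun s => co β (Θ (qq p₀ lam s))) s ∧
      Function.Injective (fderiv ℂ (fun s => co β (Θ (qq p₀ lam s))) s) := by
  have q1 : ContDiff ℂ 1 (qq p₀ lam) := by
    rw [avoid_qq]
    exact contDiff_const.add (avoidL lam).contDiff
  have q2 : HasFDerivAt (qq p₀ lam) (avoidL lam) s := by
    rw [avoid_qq]
    exact (avoidL lam).hasFDerivAt.const_add p₀
  refine ⟨(avoid_c1 g h).comp s q1.contDiffAt, ?_⟩
  have hd := (((avoid_c1 g h).differentiableAt one_ne_zero).hasFDerivAt.comp s q2).fderiv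
  have hd' : fderiv ℂ (fun s => co β (Θ (qq p₀ lam s))) s = _ := hd
  rw [hd', injective_iff_map_eq_zero]
  intro v hv
  have h0 := avoid_imm g h hv
  funext l
  refine Fintype.linearIndependent_iff.1 hl v ?_ l
  simpa [avoidL, Fintype.linearCombination_apply] using h0

lemma avoid_thin (h : SThin) (g : GA1 w Θ) {F : Subfield ℂ} (hF : Countable F) {m : ℕ}
    (p₀ : Pt t a) {lam : Fin m → Pt t a} (hl : LinearIndependent ℂ lam) (r e : ℕ)
    (A : (Fin e → ℂ) →L[ℂ] (Fin m → ℂ)) :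
    dimH {x | ∃ s τ, ¬ Ind F (r + 1) (rat (Θ (qq p₀ lam s))) ∧ x = s + A τ} ≤ (2 * (r + e) : ℕ) := by
  refine le_trans (dimH_mono (t := ⋃ β : Cht M t, {x | ∃ s ∈ {s | Ch w β (Θ (qq p₀ lam s))}, ∃ τ,
    ¬ Ind F (r + 1) (Set.range (co β (Θ (qq p₀ lam s)))) ∧ x = s + A τ}) ?_) ?_
  · rintro x ⟨s, τ, h1, h2⟩
    obtain ⟨β, hβ⟩ := exists_ch (g.blk (qq p₀ lam s))
    refine Set.mem_iUnion.2 ⟨β, s, hβ, τ, fun h3 => h1 (h3.mono le_rfl le_rfl ?_), h2⟩
    rintro _ ⟨x, rfl⟩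
    exact co_mem β _ x
  · rw [dimH_iUnion]
    exact iSup_le fun β => h m r e (CI M t) F (fun s => co β (Θ (qq p₀ lam s))) _ A hF
      fun s hs => avoid_phi g p₀ hl hs

lemma avoid_ex {m : ℕ} {B : Set (Fin (m + 1) → ℂ)} (h : dimH B ≤ (2 * m : ℕ)) : ∃ x, x ∉ B := by
  by_contra hc
  push Not at hc
  have e : B = Set.univ := Set.eq_univ_of_forall hc
  rw [e, Real.dimH_univ_eq_finrank, finrank_real_of_complex, Module.finrank_pi, Fintype.card_fin,
    Nat.cast_le] at h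
  omega

theorem sAvoid (h : SThin) : SAvoid := by
  intro t a M w Θ F p₀ m lam v g hF hl
  have h1 := avoid_thin h g hF p₀ hl m 0 0
  cases m with
  | zero =>
    obtain ⟨x, hx⟩ := avoid_ex h1
    refine ⟨x, ?_, fun τ => ind_zero _ _⟩
    by_contra hc
    exact hx ⟨x, 0, hc, by simp⟩
  | succ m =>
    have h2 := avoid_thin h g hF p₀ hl m 1
      ((ContinuousLinearMap.proj (R := ℂ) (φ := fun _ : Fin 1 => ℂ) 0).smulRight v)
    obtain ⟨x, hx⟩ := avoid_ex (B := _ ∪ _) (by rw [dimH_union]; exact max_le h1 h2)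
    refine ⟨x, ?_, fun τ => ?_⟩
    · by_contra hc
      exact hx (Or.inl ⟨x, 0, hc, by simp⟩)
    · by_contra hc
      exact hx (Or.inr ⟨x + τ • v, fun _ => -τ, hc, by simp⟩)

end Pool.Agent.MP_c69980_ag.H43
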