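import Pool.Agent.MP_c69980_ag.H43.Spec1

/-!
Upper bound for a Hilbert function.
-/

set_option autoImplicit false

namespace Pool.Agent.MP_c69980_ag.H43

open MvPolynomial Finset

/-- Exponent vectors with entries at most `N`, at most `d` of them at least `e`. -/
noncomputable def hilbBox (ι : Type) [Fintype ι] [DecidableEq ι] (d e N : ℕ) : Finset (ι → ℕ) :=
  ((univ : Finset (Finset ι)).filter fun T => T.card ≤ d).biUnion fun T =>
    Fintype.piFinset fun i => if i ∈ T then range (N + 1) else range e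

lemma hilb_card (ι : Type) [Fintype ι] [DecidableEq ι] (d e N : ℕ) :
    (hilbBox ι d e N).card ≤
      (Fintype.card (Finset ι) * (e + 1) ^ Fintype.card ι) * (N + 1) ^ d := by
  refine (card_biUnion_le_card_mul _ _ ((e + 1) ^ Fintype.card ι * (N + 1) ^ d)
    fun T hT => ?_).trans ?_
  · rw [Fintype.card_piFinset]
    have h1 : ∏ i, (if i ∈ T then range (N + 1) else range e).card
        ≤ ∏ i, ((e + 1) * if i ∈ T then N + 1 else 1) := by
      refine prod_le_prod' fun i _ => ?_
      split_ifs
      · rw [card_range]; exact Nat.le_mul_of_pos_left _ (Nat.succ_pos e)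
      · rw [card_range]; omega
    refine h1.trans ?_
    rw [prod_mul_distrib, prod_const, card_univ, prod_ite_mem, univ_inter, prod_const]
    exact Nat.mul_le_mul_left _ (Nat.pow_le_pow_right (Nat.succ_pos N) (mem_filter.1 hT).2)
  · rw [mul_assoc]
    exact Nat.mul_le_mul_right _ (card_le_univ _)

lemma hilb_mem {ι : Type} [Fintype ι] [DecidableEq ι] {d e N : ℕ} {m : ι →₀ ℕ}
    (h1 : m.degree ≤ N) (h2 : (univ.filter fun i => e ≤ m i).card ≤ d) :
    (m : ι → ℕ) ∈ hilbBox ι d e N := by
  refine mem_biUnion.2 ⟨_, mem_filter.2 ⟨mem_univ _, h2⟩, Fintype.mem_piFinset.2 fun i => ?_⟩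
  split_ifs with h
  · exact mem_range.2 (Nat.lt_succ_of_le ((Finsupp.le_degree i m).trans h1))
  · simpa using h

lemma hilb_span {F A ι : Type} [Field F] [CommRing A] [Algebra F A] [Fintype ι] [DecidableEq ι]
    [DecidableEq A] (x : ι → A) (d e N : ℕ)
    (h : ∀ y : Fin (d + 1) → ι, ∃ H : MvPolynomial (Fin (d + 1)) F, H ≠ 0 ∧ H.totalDegree ≤ e ∧
      aeval (x ∘ y) H = 0) (m : ι →₀ ℕ) (hm : m.degree ≤ N) :
    ∏ i, x i ^ m i ∈ Submodule.span F
      (((hilbBox ι d e N).image fun f => ∏ i, x i ^ f i : Finset A) : Set A) := by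
  classical
  let _ : LinearOrder ι := LinearOrder.lift' (Fintype.equivFin ι) (Fintype.equivFin ι).injective
  have : WellFoundedGT ι := Finite.to_wellFoundedGT
  suffices H : ∀ k : DegLex (ι →₀ ℕ), ∀ m : ι →₀ ℕ, toDegLex m = k → m.degree ≤ N →
      ∏ i, x i ^ m i ∈ Submodule.span F
        (((hilbBox ι d e N).image fun f => ∏ i, x i ^ f i : Finset A) : Set A) from H _ m rfl hm
  intro k
  induction k using WellFoundedLT.induction with
  | ind k ih =>
  rintro m rfl hm
  by_cases h2 : (univ.filter fun i => e ≤ m i).card ≤ d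
  · exact Submodule.subset_span (mem_coe.2 (mem_image.2 ⟨_, hilb_mem hm h2, rfl⟩))
  obtain ⟨T, hT, hc⟩ := exists_subset_card_eq (Nat.succ_le_of_lt (not_le.1 h2))
  let y : Fin (d + 1) → ι := fun k => (T.equivFinOfCardEq hc).symm k
  have yi : Function.Injective y :=
    Subtype.val_injective.comp (T.equivFinOfCardEq hc).symm.injective
  have ye : ∀ k, e ≤ m (y k) := fun k => (mem_filter.1 (hT ((T.equivFinOfCardEq hc).symm k).2)).2
  obtain ⟨H, H0, Hd, Hx⟩ := h y
  have G0 : rename y H ≠ 0 := fun h0 => H0 (rename_injective y yi (h0.trans (map_zero _).symm))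
  obtain ⟨l, hl, hmax⟩ := exists_max_image (rename y H).support toDegLex (support_nonempty.2 G0)
  have hlm : l ≤ m := by
    obtain ⟨u, rfl, hu⟩ := coeff_rename_ne_zero y H l (mem_support_iff.1 hl)
    intro i
    by_cases hi : i ∈ Set.range y
    · obtain ⟨k, rfl⟩ := hi
      rw [Finsupp.mapDomain_apply yi]
      refine le_trans ?_ (ye k)
      exact ((Finsupp.le_degree k u).trans (le_totalDegree (mem_support_iff.2 hu))).trans Hd
    · rw [Finsupp.mapDomain_of_notMem_range _ _ hi]; exact Nat.zero_le _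
  obtain ⟨r, rfl⟩ := exists_add_of_le hlm
  have hG : ∑ s ∈ (rename y H).support, coeff s (rename y H) • ∏ i, x i ^ (s + r) i = 0 := by
    have h0 : aeval x (rename y H) = 0 := by rw [aeval_rename, Hx]
    have h1 : aeval x (rename y H) * ∏ i, x i ^ r i = 0 := by rw [h0, zero_mul]
    rw [aeval_def, eval₂_eq', sum_mul] at h1
    rw [← h1]
    refine sum_congr rfl fun s _ => ?_
    simp only [Finsupp.add_apply, pow_add, prod_mul_distrib, Algebra.smul_def, mul_assoc]
  rw [← add_sum_erase _ _ hl] at hG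
  have hs : coeff l (rename y H) • ∏ i, x i ^ (l + r) i ∈ Submodule.span F
      (((hilbBox ι d e N).image fun f => ∏ i, x i ^ f i : Finset A) : Set A) := by
    rw [eq_neg_of_add_eq_zero_left hG]
    refine neg_mem (Submodule.sum_mem _ fun s hs => Submodule.smul_mem _ _ ?_)
    have h3 : toDegLex s < toDegLex l := (hmax s (mem_of_mem_erase hs)).lt_of_ne
      fun h4 => ne_of_mem_erase hs (toDegLex_injective h4)
    have h4 : toDegLex (s + r) < toDegLex (l + r) := by
      rw [toDegLex_add, toDegLex_add]; exact add_lt_add_left h3 _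
    exact ih _ h4 _ rfl ((Finsupp.DegLex.monotone_degree h4.le).trans hm)
  exact (Submodule.smul_mem_iff _ (mem_support_iff.1 hl)).1 hs

theorem sHilb : SHilb := by
  intro F A ι _ _ _ _ x d h
  classical
  choose H H0 Hx using h
  refine ⟨Fintype.card (Finset ι) * ((univ.sup fun y => (H y).totalDegree) + 1) ^ Fintype.card ι,
    fun N => ?_⟩
  refine le_trans ?_ (hilb_card ι d _ N)
  refine le_trans ?_ (card_image_le (f := fun f : ι → ℕ => ∏ i, x i ^ f i))
  refine le_trans (Submodule.finrank_mono ?_) (finrank_span_finset_le_card (R := F) _)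
  rintro _ ⟨P, hP, rfl⟩
  change aeval x P ∈ _
  rw [aeval_def, eval₂_eq']
  refine Submodule.sum_mem _ fun s hs => ?_
  rw [← Algebra.smul_def]
  refine Submodule.smul_mem _ _ (hilb_span x d _ N (fun y => ⟨H y, H0 y,
    le_sup (f := fun y => (H y).totalDegree) (mem_univ y), Hx y⟩) s ?_)
  exact (le_totalDegree hs).trans ((mem_restrictTotalDegree _ _ _).1 hP)

end Pool.Agent.MP_c69980_ag.H43
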